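import Pool.Agent.Helper44.TOT.Defs

/-!
# TOT-F2: from primes to integers
-/

set_option autoImplicit false

namespace Pool.Agent.Helper53.TOT

open Pool.Agent.Helper44.TOT

noncomputable section

open Classical in
/-- the primes `q ≤ N` with `P q` -/
def bp (P : ℕ → Prop) (N : ℕ) : Finset ℕ := (Finset.Icc 1 N).filter (fun q => q.Prime ∧ P q)

/-- `∑ log q / q` over the primes `q ≤ N` with `P q` -/
def TS (P : ℕ → Prop) (N : ℕ) : ℝ := ∑ q ∈ bp P N, Real.log q / q

open Classical in
/-- weight of the primes with `P q` in `n` -/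
def bw (P : ℕ → Prop) (n : ℕ) : ℝ :=
  ∑ q ∈ n.primeFactors.filter P, (n.factorization q : ℝ) * Real.log q

theorem TS_nonneg (P : ℕ → Prop) (N : ℕ) : 0 ≤ TS P N := by
  unfold TS
  refine Finset.sum_nonneg fun q _ => ?_
  exact div_nonneg (Real.log_natCast_nonneg q) (Nat.cast_nonneg q)

theorem TS_mono (P : ℕ → Prop) {M N : ℕ} (h : M ≤ N) : TS P M ≤ TS P N := by
  classical
  unfold TS bp
  refine Finset.sum_le_sum_of_subset_of_nonneg ?_ ?_
  · exact Finset.filter_subset_filter _ (Finset.Icc_subset_Icc_right h)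
  · intro q _ _
    exact div_nonneg (Real.log_natCast_nonneg q) (Nat.cast_nonneg q)

theorem TS_step (P : ℕ → Prop) {N : ℕ} (hN : 2 ≤ N) :
    TS P N ≤ TS P (N / 2) + (blk P N : ℝ) * (2 * Real.log N / N) := by
  classical
  have hsplit : bp P N = bp P (N / 2) ∪ (Finset.Ioc (N / 2) N).filter (fun q => q.Prime ∧ P q) := by
    unfold bp
    rw [← Finset.filter_union]
    congr 1
    ext q
    simp only [Finset.mem_union, Finset.mem_Icc, Finset.mem_Ioc]
    omega
  have hdisj : Disjoint (bp P (N / 2)) ((Finset.Ioc (N / 2) N).filter (fun q => q.Prime ∧ P q)) := by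
    rw [Finset.disjoint_left]
    intro q hq hq'
    unfold bp at hq
    simp only [Finset.mem_filter, Finset.mem_Icc, Finset.mem_Ioc] at hq hq'
    omega
  have h1 : TS P N = TS P (N / 2) +
      ∑ q ∈ (Finset.Ioc (N / 2) N).filter (fun q => q.Prime ∧ P q), Real.log q / q := by
    unfold TS
    rw [hsplit, Finset.sum_union hdisj]
  rw [h1]
  refine add_le_add le_rfl ?_
  have hblk : (blk P N : ℝ) = (((Finset.Ioc (N / 2) N).filter (fun q => q.Prime ∧ P q)).card : ℝ) := by
    unfold blk
    congr!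
  rw [hblk, ← nsmul_eq_mul]
  refine Finset.sum_le_card_nsmul _ _ _ ?_
  intro q hq
  simp only [Finset.mem_filter, Finset.mem_Ioc] at hq
  have hq1 : 1 < q := hq.2.1.one_lt
  have hqpos : (0 : ℝ) < q := by exact_mod_cast (by omega : 0 < q)
  have hNpos : (0 : ℝ) < N := by exact_mod_cast (by omega : 0 < N)
  have h2 : (N : ℝ) ≤ 2 * q := by exact_mod_cast (by omega : N ≤ 2 * q)
  have h3 : Real.log q ≤ Real.log N :=
    Real.log_le_log hqpos (by exact_mod_cast hq.1.2)
  have h4 : 0 ≤ Real.log N := Real.log_natCast_nonneg N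
  have h5 : 0 ≤ Real.log q := Real.log_natCast_nonneg q
  rw [div_le_div_iff₀ hqpos hNpos]
  nlinarith

theorem TS_bound {P : ℕ → Prop} (hP : Small P) {θ : ℝ} (hθ : 0 < θ) :
    ∃ C : ℝ, 0 ≤ C ∧ ∀ N : ℕ, 1 ≤ N → TS P N ≤ C + θ * Real.log N := by
  have hl2 : 0 < Real.log 2 := Real.log_pos (by norm_num)
  obtain ⟨X, hX⟩ := hP (θ * Real.log 2 / 2) (by positivity)
  refine ⟨TS P (max X 2), TS_nonneg _ _, ?_⟩
  intro N
  induction N using Nat.strong_induction_on with
  | _ N ih =>
    intro hN
    have hlogN : 0 ≤ Real.log N := Real.log_natCast_nonneg N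
    by_cases hc : N < max X 2
    · have := TS_mono P hc.le
      have h2 : 0 ≤ θ * Real.log N := by positivity
      linarith
    · push Not at hc
      have hN2 : 2 ≤ N := le_trans (le_max_right _ _) hc
      have hNX : X ≤ N := le_trans (le_max_left _ _) hc
      have h1 := TS_step P hN2
      have h2 := ih (N / 2) (by omega) (by omega)
      have h3 := hX N hNX
      have hNpos : (0 : ℝ) < N := by exact_mod_cast (by omega : 0 < N)
      have hlogpos : 0 < Real.log N := Real.log_pos (by exact_mod_cast (by omega : 1 < N))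
      have h4 : (blk P N : ℝ) * (2 * Real.log N / N) ≤ θ * Real.log 2 := by
        calc (blk P N : ℝ) * (2 * Real.log N / N)
            ≤ (θ * Real.log 2 / 2 * (N / Real.log N)) * (2 * Real.log N / N) := by
              refine mul_le_mul_of_nonneg_right h3 (by positivity)
          _ = θ * Real.log 2 := by
              field_simp
      have h5 : Real.log ((N / 2 : ℕ) : ℝ) ≤ Real.log N - Real.log 2 := by
        rw [← Real.log_div (by positivity) (by norm_num)]
        refine Real.log_le_log (by exact_mod_cast (by omega : 0 < N / 2)) ?_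
        exact Nat.cast_div_le
      nlinarith

theorem factorization_sum (q N : ℕ) :
    ∑ n ∈ Finset.Icc 1 N, n.factorization q = (N.factorial).factorization q := by
  induction N with
  | zero => simp
  | succ N ih =>
    rw [Finset.sum_Icc_succ_top (by omega), ih, Nat.factorial_succ,
      Nat.factorization_mul (by omega) (Nat.factorial_ne_zero N)]
    simp [add_comm]

theorem factorization_factorial_le {q N : ℕ} (hq : q.Prime) :
    ((N.factorial).factorization q : ℝ) ≤ 2 * N / q := by
  have hf : Fact q.Prime := ⟨hq⟩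
  have h1 := sub_one_mul_padicValNat_factorial (p := q) N
  rw [← Nat.factorization_def _ hq] at h1
  have h2 : (q - 1) * (N.factorial).factorization q ≤ N := by omega
  have hq2 : 2 ≤ q := hq.two_le
  have hqpos : (0 : ℝ) < q := by exact_mod_cast (by omega : 0 < q)
  rw [le_div_iff₀ hqpos]
  have h3 : (q : ℝ) ≤ 2 * ((q : ℝ) - 1) := by
    have : (2 : ℝ) ≤ q := by exact_mod_cast hq2
    linarith
  have h4 : ((q : ℝ) - 1) * ((N.factorial).factorization q : ℝ) ≤ N := by
    have := (Nat.cast_le (α := ℝ)).2 h2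
    push_cast [Nat.cast_sub (by omega : 1 ≤ q)] at this
    exact this
  have h5 : (0 : ℝ) ≤ ((N.factorial).factorization q : ℝ) := Nat.cast_nonneg _
  nlinarith

theorem bw_sum_le (P : ℕ → Prop) (N : ℕ) :
    ∑ n ∈ Finset.Icc 1 N, bw P n ≤ 2 * N * TS P N := by
  classical
  have h1 : ∀ n ∈ Finset.Icc 1 N, bw P n = ∑ q ∈ bp P N, (n.factorization q : ℝ) * Real.log q := by
    intro n hn
    rw [Finset.mem_Icc] at hn
    unfold bw
    refine Finset.sum_subset ?_ ?_
    · intro q hq
      unfold bp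
      simp only [Finset.mem_filter, Nat.mem_primeFactors, Finset.mem_Icc] at hq ⊢
      exact ⟨⟨hq.1.1.one_lt.le, (Nat.le_of_dvd (by omega) hq.1.2.1).trans hn.2⟩, hq.1.1, hq.2⟩
    · intro q hq hq'
      unfold bp at hq
      simp only [Finset.mem_filter, Finset.mem_Icc] at hq
      have : n.factorization q = 0 := by
        by_contra hne
        apply hq'
        rw [Finset.mem_filter]
        exact ⟨by rw [← Nat.support_factorization]; exact Finsupp.mem_support_iff.2 hne, hq.2.2⟩
      rw [this]; simp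
  rw [Finset.sum_congr rfl h1, Finset.sum_comm]
  unfold TS
  rw [Finset.mul_sum]
  refine Finset.sum_le_sum fun q hq => ?_
  unfold bp at hq
  simp only [Finset.mem_filter, Finset.mem_Icc] at hq
  rw [← Finset.sum_mul]
  have h2 : (∑ n ∈ Finset.Icc 1 N, (n.factorization q : ℝ)) = ((N.factorial).factorization q : ℝ) := by
    rw [← factorization_sum]; push_cast; rfl
  rw [h2]
  calc ((N.factorial).factorization q : ℝ) * Real.log q ≤ (2 * N / q) * Real.log q :=
        mul_le_mul_of_nonneg_right (factorization_factorial_le hq.2.1) (Real.log_natCast_nonneg q)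
    _ = 2 * N * (Real.log q / q) := by ring

theorem bw_nonneg (P : ℕ → Prop) (n : ℕ) : 0 ≤ bw P n := by
  classical
  unfold bw
  exact Finset.sum_nonneg fun q _ => mul_nonneg (Nat.cast_nonneg _) (Real.log_natCast_nonneg q)

theorem log_eq (n : ℕ) :
    Real.log n = ∑ q ∈ n.primeFactors, (n.factorization q : ℝ) * Real.log q := by
  rw [Real.log_nat_eq_sum_factorization]
  unfold Finsupp.sum
  rw [Nat.support_factorization]

theorem FF_close (hG : GGavg) {α ε : ℝ} (hε : 0 ≤ ε) {n : ℕ} (hn : 1 ≤ n) :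
    |(FF n : ℝ) - α * Real.log n| ≤
      ε * Real.log n + (3 / 2 + |α|) * bw (fun q => ε < |gg q - α|) n := by
  classical
  obtain ⟨h1, h2, -, -⟩ := hG
  rw [h1 n hn]
  unfold wsum
  have h3 : (∑ q ∈ n.primeFactors, (n.factorization q : ℝ) * Real.log q * gg q) - α * Real.log n =
      ∑ q ∈ n.primeFactors, (n.factorization q : ℝ) * Real.log q * (gg q - α) := by
    rw [log_eq n, Finset.mul_sum, ← Finset.sum_sub_distrib]
    refine Finset.sum_congr rfl fun q _ => by ring
  rw [h3]
  have h4 : ε * Real.log n + (3 / 2 + |α|) * bw (fun q => ε < |gg q - α|) n =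
      ∑ q ∈ n.primeFactors, (ε * ((n.factorization q : ℝ) * Real.log q) +
        if ε < |gg q - α| then (3 / 2 + |α|) * ((n.factorization q : ℝ) * Real.log q) else 0) := by
    rw [Finset.sum_add_distrib, ← Finset.mul_sum, ← log_eq, ← Finset.sum_filter,
      ← Finset.mul_sum]
    unfold bw
    congr!
  rw [h4]
  refine (Finset.abs_sum_le_sum_abs _ _).trans (Finset.sum_le_sum fun q hq => ?_)
  have hqp := Nat.prime_of_mem_primeFactors hq
  have hw : 0 ≤ (n.factorization q : ℝ) * Real.log q :=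
    mul_nonneg (Nat.cast_nonneg _) (Real.log_natCast_nonneg q)
  rw [abs_mul, abs_of_nonneg hw]
  obtain ⟨hg0, hg1⟩ := h2 q hqp.two_le
  split_ifs with hc
  · have h5 : |gg q - α| ≤ 3 / 2 + |α| := by
      calc |gg q - α| ≤ |gg q| + |α| := abs_sub _ _
        _ ≤ 3 / 2 + |α| := by rw [abs_of_nonneg hg0]; linarith
    nlinarith
  · push Not at hc
    nlinarith

/-- the number of steps to reach 1 -/
def ft (n : ℕ) : ℕ := sInf {k : ℕ | 1 ≤ k ∧ Nat.totient^[k] n = 1}

theorem ft_close (hG : GGavg) (hf : fvsF) {α ε δ L : ℝ} (hε : 0 < ε)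
    (hδ : (3 / 2 + |α|) * δ * 2 ≤ ε / 4) (hδ0 : 0 ≤ δ) {n : ℕ} (hn : 2 ≤ n)
    (hb : bw (fun q => ε / 4 < |gg q - α|) n ≤ δ * L) (hL : L ≤ 2 * Real.log n)
    (hbig : 4 / ε ≤ Real.log n) :
    |(ft n : ℝ) / Real.log n - α| ≤ ε := by
  have hlog : 0 < Real.log n := Real.log_pos (by exact_mod_cast (by omega : 1 < n))
  have h1 := FF_close hG (α := α) (ε := ε / 4) (by positivity) (n := n) (by omega)
  have h2 : |(ft n : ℝ) - FF n| ≤ 1 := by
    obtain ⟨he, ho⟩ := hf n hn
    rcases Nat.even_or_odd n with h | h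
    · have := he h
      unfold ft
      rw [this]; simp
    · have := ho h
      unfold ft
      rw [this]; push_cast; simp
  have h3 : |(ft n : ℝ) - α * Real.log n| ≤ ε * Real.log n := by
    have h4 : |(ft n : ℝ) - α * Real.log n| ≤ |(ft n : ℝ) - FF n| + |(FF n : ℝ) - α * Real.log n| :=
      abs_sub_le _ _ _
    have h5 : 1 ≤ ε / 4 * Real.log n := by
      rw [div_le_iff₀ hε] at hbig
      linarith
    have hK : 0 ≤ 3 / 2 + |α| := by positivity
    have h6 : (3 / 2 + |α|) * bw (fun q => ε / 4 < |gg q - α|) n ≤ ε / 4 * Real.log n := by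
      calc (3 / 2 + |α|) * bw (fun q => ε / 4 < |gg q - α|) n
          ≤ (3 / 2 + |α|) * (δ * (2 * Real.log n)) := by
            refine mul_le_mul_of_nonneg_left (hb.trans ?_) hK
            exact mul_le_mul_of_nonneg_left hL hδ0
        _ = ((3 / 2 + |α|) * δ * 2) * Real.log n := by ring
        _ ≤ ε / 4 * Real.log n := mul_le_mul_of_nonneg_right hδ hlog.le
    linarith [hlog.le, mul_pos hε hlog]
  have h7 : (ft n : ℝ) / Real.log n - α = ((ft n : ℝ) - α * Real.log n) / Real.log n := by
    field_simp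
  rw [h7, abs_div, abs_of_pos hlog, div_le_iff₀ hlog]
  exact h3

theorem main (hP : PrimesClaim) (hf : fvsF) (hG : GGavg) (hF : FFprops) : Main := by
  classical
  obtain ⟨α, hα⟩ := hP
  refine ⟨α, ?_⟩
  intro ε hε
  -- parameters
  set K : ℝ := 3 / 2 + |α| with hK
  have hKpos : 0 < K := by positivity
  set δ : ℝ := ε / (8 * K) with hδdef
  have hδ : 0 < δ := by positivity
  have hδK : K * δ * 2 ≤ ε / 4 := by
    rw [hδdef]
    have : K * (ε / (8 * K)) * 2 = ε / 4 := by field_simp; ring
    rw [this]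
  set P : ℕ → Prop := fun q => ε / 4 < |gg q - α| with hPdef
  have hsm : Small P := hα (ε / 4) (by positivity)
  -- nonnegative sequence; show eventually < η
  rw [Metric.tendsto_atTop]
  intro η hη
  obtain ⟨C, hC0, hC⟩ := TS_bound hsm (θ := η * δ / 16) (by positivity)
  -- log N large
  have hlogtop : Filter.Tendsto (fun N : ℕ => Real.log (N : ℝ)) Filter.atTop Filter.atTop :=
    Real.tendsto_log_atTop.comp tendsto_natCast_atTop_atTop
  have hsqrt : Filter.Tendsto (fun N : ℕ => Real.sqrt (N : ℝ)) Filter.atTop Filter.atTop :=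
    Real.tendsto_sqrt_atTop.comp tendsto_natCast_atTop_atTop
  have hev : ∀ᶠ N : ℕ in Filter.atTop,
      (2 ≤ N ∧ 8 / ε ≤ Real.log N ∧ 16 * C / (η * δ) ≤ Real.log N) ∧
        8 / η ≤ Real.sqrt N := by
    have e1 := hlogtop.eventually_ge_atTop (8 / ε)
    have e2 := hlogtop.eventually_ge_atTop (16 * C / (η * δ))
    have e3 := hsqrt.eventually_ge_atTop (8 / η)
    have e4 := Filter.eventually_ge_atTop (α := ℕ) 2
    filter_upwards [e1, e2, e3, e4] with N a b c d
    exact ⟨⟨d, a, b⟩, c⟩
  obtain ⟨N0, hN0⟩ := Filter.eventually_atTop.1 hev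
  refine ⟨N0, ?_⟩
  intro N hN
  obtain ⟨⟨hN2, hl1, hl2⟩, hs⟩ := hN0 N hN
  have hNpos : (0 : ℝ) < N := by exact_mod_cast (by omega : 0 < N)
  have hlog : 0 < Real.log N := Real.log_pos (by exact_mod_cast (by omega : 1 < N))
  -- the bad set
  set B : Finset ℕ := (Finset.range N).filter
      (fun n : ℕ =>
        ε < |((sInf {k : ℕ | 1 ≤ k ∧ Nat.totient^[k] n = 1} : ℕ) : ℝ)
              / Real.log (n : ℝ) - α|) with hB
  set B1 : Finset ℕ := (Finset.Icc 1 N).filter (fun n => δ * Real.log N < bw P n) with hB1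
  set B0 : Finset ℕ := (Finset.range N).filter (fun n => (n : ℝ) ≤ Real.sqrt N) with hB0
  have hsub : B ⊆ B0 ∪ B1 := by
    intro n hn
    rw [hB, Finset.mem_filter, Finset.mem_range] at hn
    rw [Finset.mem_union]
    by_contra hcon
    push Not at hcon
    obtain ⟨hc0, hc1⟩ := hcon
    rw [hB0, Finset.mem_filter, Finset.mem_range] at hc0
    rw [hB1, Finset.mem_filter, Finset.mem_Icc] at hc1
    have hn0 : Real.sqrt N < n := by
      by_contra h
      exact hc0 ⟨hn.1, not_lt.1 h⟩
    have hsq1 : 1 ≤ Real.sqrt N := by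
      rw [Real.one_le_sqrt]
      exact_mod_cast (by omega : 1 ≤ N)
    have hn1 : (1 : ℝ) < n := lt_of_le_of_lt hsq1 hn0
    have hn2 : 2 ≤ n := by
      have : 1 < n := by exact_mod_cast hn1
      omega
    have hbn : bw P n ≤ δ * Real.log N := by
      by_contra h
      exact hc1 ⟨⟨by omega, hn.1.le⟩, not_le.1 h⟩
    have hLn : Real.log N ≤ 2 * Real.log n := by
      have h1 : Real.log (Real.sqrt N) ≤ Real.log n :=
        Real.log_le_log (by positivity) hn0.le
      rw [Real.log_sqrt (Nat.cast_nonneg N)] at h1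
      linarith
    have hbig : 4 / ε ≤ Real.log n := by
      have : 8 / ε = 2 * (4 / ε) := by ring
      linarith
    have := ft_close hG hf hε hδK hδ.le hn2 hbn hLn hbig
    unfold ft at this
    exact absurd hn.2 (not_lt.2 this)
  have hcard : (B.card : ℝ) ≤ B0.card + B1.card := by
    have := (Finset.card_le_card hsub).trans (Finset.card_union_le _ _)
    exact_mod_cast this
  have hB0c : (B0.card : ℝ) ≤ Real.sqrt N + 1 := by
    have h1 : B0 ⊆ Finset.range (⌊Real.sqrt N⌋₊ + 1) := by
      intro n hn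
      rw [hB0, Finset.mem_filter] at hn
      rw [Finset.mem_range, Nat.lt_succ_iff]
      exact Nat.le_floor hn.2
    have h2 := Finset.card_le_card h1
    rw [Finset.card_range] at h2
    have h3 : (⌊Real.sqrt N⌋₊ : ℝ) ≤ Real.sqrt N := Nat.floor_le (Real.sqrt_nonneg _)
    have h4 : (B0.card : ℝ) ≤ (⌊Real.sqrt N⌋₊ : ℝ) + 1 := by exact_mod_cast h2
    linarith
  have hB1c : (B1.card : ℝ) * (δ * Real.log N) ≤ 2 * N * TS P N := by
    calc (B1.card : ℝ) * (δ * Real.log N) = ∑ _n ∈ B1, δ * Real.log N := by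
          rw [Finset.sum_const, nsmul_eq_mul]
      _ ≤ ∑ n ∈ B1, bw P n := by
          refine Finset.sum_le_sum fun n hn => ?_
          rw [hB1, Finset.mem_filter] at hn
          exact hn.2.le
      _ ≤ ∑ n ∈ Finset.Icc 1 N, bw P n :=
          Finset.sum_le_sum_of_subset_of_nonneg (Finset.filter_subset _ _)
            fun n _ _ => bw_nonneg P n
      _ ≤ 2 * N * TS P N := bw_sum_le P N
  have hTS := hC N (by omega)
  have hB1c' : (B1.card : ℝ) ≤ η / 4 * N := by
    have hpos : 0 < δ * Real.log N := by positivity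
    rw [← mul_le_mul_iff_left₀ hpos]
    refine hB1c.trans ?_
    have h1 : C ≤ η * δ / 16 * Real.log N := by
      rw [div_le_iff₀ (by positivity)] at hl2
      linarith
    have h2 : TS P N ≤ η * δ / 8 * Real.log N := by linarith
    calc 2 * N * TS P N ≤ 2 * N * (η * δ / 8 * Real.log N) :=
          mul_le_mul_of_nonneg_left h2 (by positivity)
      _ = η / 4 * N * (δ * Real.log N) := by ring
  have hsN : Real.sqrt N * Real.sqrt N = N := Real.mul_self_sqrt (Nat.cast_nonneg N)
  have hsqpos : 0 < Real.sqrt N := Real.sqrt_pos.2 hNpos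
  have hsq1 : 1 ≤ Real.sqrt N := by
    rw [Real.one_le_sqrt]
    exact_mod_cast (by omega : 1 ≤ N)
  have hsle : Real.sqrt N ≤ η / 8 * N := by
    rw [div_le_iff₀ hη] at hs
    nlinarith
  rw [Real.dist_eq, sub_zero, abs_of_nonneg (by positivity), div_lt_iff₀ hNpos]
  have : (B.card : ℝ) ≤ η / 2 * N := by linarith
  nlinarith [mul_pos hη hNpos]

end

end Pool.Agent.Helper53.TOT
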